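import Pool.Agent.H6.TP.Targets

/-!
# Row AVV: the mean over a window and the means over its short sub-windows
-/

set_option autoImplicit false

open Finset Pool.Agent.H6.N4D Pool.Agent.H6.TP

namespace Pool.Agent.H11.TP

lemma avv_shift (g : ℕ → ℂ) (hg : ∀ m, ‖g m‖ ≤ 1) (H Y n j : ℕ) (hj : j ≤ H) :
    ‖∑ m ∈ Ioc n (n + Y), g m - ∑ u ∈ Ico n (n + Y), g (u + (j + 1))‖ ≤ 2 * H := by
  have h1 : ∑ m ∈ Ioc n (n + Y), g m = ∑ m ∈ range (n + 1 + Y), g m - ∑ m ∈ range (n + 1), g m := by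
    have e : Ioc n (n + Y) = Ico (n + 1) (n + 1 + Y) := by
      ext m; simp only [mem_Ioc, mem_Ico]; omega
    rw [e, sum_Ico_eq_sub _ (by omega)]
  have h2 : ∑ u ∈ Ico n (n + Y), g (u + (j + 1)) =
      ∑ m ∈ range (n + 1 + Y + j), g m - ∑ m ∈ range (n + 1 + j), g m := by
    rw [sum_Ico_add', sum_Ico_eq_sub _ (by omega)]
    have e1 : n + Y + (j + 1) = n + 1 + Y + j := by omega
    have e2 : n + (j + 1) = n + 1 + j := by omega
    rw [e1, e2]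
  have h3 : ∀ a : ℕ, ‖∑ m ∈ range (a + j), g m - ∑ m ∈ range a, g m‖ ≤ (H : ℝ) := by
    intro a
    rw [← sum_Ico_eq_sub _ (by omega : a ≤ a + j)]
    calc ‖∑ m ∈ Ico a (a + j), g m‖ ≤ ∑ m ∈ Ico a (a + j), ‖g m‖ := norm_sum_le _ _
      _ ≤ ∑ _m ∈ Ico a (a + j), (1 : ℝ) := sum_le_sum fun m _ => hg m
      _ = (j : ℝ) := by simp
      _ ≤ (H : ℝ) := by exact_mod_cast hj
  rw [h1, h2]
  have e : ∑ m ∈ range (n + 1 + Y), g m - ∑ m ∈ range (n + 1), g m -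
      (∑ m ∈ range (n + 1 + Y + j), g m - ∑ m ∈ range (n + 1 + j), g m) =
      (∑ m ∈ range (n + 1 + j), g m - ∑ m ∈ range (n + 1), g m) -
      (∑ m ∈ range (n + 1 + Y + j), g m - ∑ m ∈ range (n + 1 + Y), g m) := by ring
  rw [e]
  calc _ ≤ ‖∑ m ∈ range (n + 1 + j), g m - ∑ m ∈ range (n + 1), g m‖ +
        ‖∑ m ∈ range (n + 1 + Y + j), g m - ∑ m ∈ range (n + 1 + Y), g m‖ := norm_sub_le _ _
    _ ≤ (H : ℝ) + H := add_le_add (h3 _) (h3 _)
    _ = 2 * H := by ring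

theorem pf_AVV : T_AVV := by
  intro g H Y n hg hH hHY
  have hH0 : (0 : ℝ) < H := by exact_mod_cast hH
  have hY0 : (0 : ℝ) < Y := by exact_mod_cast (lt_of_lt_of_le hH hHY)
  have hHc : (H : ℂ) ≠ 0 := by
    intro h
    have : H = 0 := by exact_mod_cast h
    omega
  -- exchange of the sums
  have hex : ∑ u ∈ Ico n (n + Y), ∑ m ∈ Ioc u (u + H), g m =
      ∑ j ∈ range H, ∑ u ∈ Ico n (n + Y), g (u + (j + 1)) := by
    rw [sum_comm]
    refine sum_congr rfl fun u _ => ?_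
    have e : Ioc u (u + H) = Ico (0 + (u + 1)) (H + (u + 1)) := by
      ext m; simp only [mem_Ioc, mem_Ico]; omega
    rw [e, ← sum_Ico_add', ← range_eq_Ico]
    refine sum_congr rfl fun j _ => ?_
    have : j + (u + 1) = u + (j + 1) := by omega
    rw [this]
  have hA : ∑ m ∈ Ioc n (n + Y), g m =
      ∑ u ∈ Ico n (n + Y), (1 / (H : ℂ)) * ∑ m ∈ Ioc u (u + H), g m +
      (1 / (H : ℂ)) * ∑ j ∈ range H,
        (∑ m ∈ Ioc n (n + Y), g m - ∑ u ∈ Ico n (n + Y), g (u + (j + 1))) := by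
    rw [← mul_sum, hex, sum_sub_distrib, sum_const, card_range, nsmul_eq_mul]
    field_simp
    ring
  have hB : ‖(1 / (H : ℂ)) * ∑ j ∈ range H,
        (∑ m ∈ Ioc n (n + Y), g m - ∑ u ∈ Ico n (n + Y), g (u + (j + 1)))‖ ≤ 2 * H := by
    rw [norm_mul, norm_div, norm_one, Complex.norm_natCast]
    have : ‖∑ j ∈ range H,
        (∑ m ∈ Ioc n (n + Y), g m - ∑ u ∈ Ico n (n + Y), g (u + (j + 1)))‖ ≤ H * (2 * H) := by
      refine (norm_sum_le _ _).trans ?_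
      calc _ ≤ ∑ _j ∈ range H, (2 * H : ℝ) := by
            refine sum_le_sum fun j hj => ?_
            exact avv_shift g hg H Y n j (mem_range.1 hj).le
        _ = H * (2 * H) := by simp
    rw [div_mul_eq_mul_div, one_mul, div_le_iff₀ hH0]
    linarith
  have hC : ‖∑ m ∈ Ioc n (n + Y), g m‖ ≤
      ∑ u ∈ Ico n (n + Y), ‖(1 / (H : ℂ)) * ∑ m ∈ Ioc u (u + H), g m‖ + 2 * H := by
    rw [hA]
    refine (norm_add_le _ _).trans ?_
    exact add_le_add (norm_sum_le _ _) hB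
  rw [norm_mul, norm_div, norm_one, Complex.norm_natCast, div_mul_eq_mul_div, one_mul]
  have e : (∑ u ∈ Ico n (n + Y), ‖(1 / (H : ℂ)) * ∑ m ∈ Ioc u (u + H), g m‖) / Y +
      2 * (H / Y : ℝ) =
      (∑ u ∈ Ico n (n + Y), ‖(1 / (H : ℂ)) * ∑ m ∈ Ioc u (u + H), g m‖ + 2 * H) / Y := by
    rw [add_div]; ring
  rw [e]
  exact div_le_div_of_nonneg_right hC hY0.le

end Pool.Agent.H11.TP
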